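import Mathlib

set_option autoImplicit false

/-!
Smooth planar domains and transplantations between planar domains: public definitions.

The plane is `ℂ` with its Euclidean distance; `ℂ ≃ᵢ ℂ` is the group of all isometries of the plane
(orientation preserving or not).
-/

namespace Pool.Agent.W780.TR

open Filter Topology Set

open scoped ContDiff

/-- A planar domain with smooth boundary: a nonempty bounded connected open set which near each of
its boundary points `z` is given by `0 < r`, where `r` is a smooth real function whose differential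
at `z` is not zero. -/
structure IsSmoothDomain (Ω : Set ℂ) : Prop where
  isOpen : IsOpen Ω
  isConnected : IsConnected Ω
  isBounded : Bornology.IsBounded Ω
  smooth_boundary : ∀ z ∈ frontier Ω, ∃ r : ℂ → ℝ, ContDiff ℝ ∞ r ∧ fderiv ℝ r z ≠ 0 ∧
    ∀ᶠ w in 𝓝 z, (w ∈ Ω ↔ 0 < r w)

/-- The data of an operator that builds functions on `Ω'` by superposing, with locally constant
complex coefficients, finitely many isometric copies of a function on `Ω`. The coefficients may jump
outside a dense open subset `D` of `Ω'` (for instance across finitely many line segments). -/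
structure Transplantation (Ω Ω' : Set ℂ) where
  /-- the isometries used -/
  pieces : Finset (ℂ ≃ᵢ ℂ)
  /-- a dense open subset of the target domain -/
  D : Set ℂ
  isOpen_D : IsOpen D
  D_subset : D ⊆ Ω'
  subset_closure_D : Ω' ⊆ closure D
  /-- the coefficients -/
  coeff : (ℂ ≃ᵢ ℂ) → ℂ → ℂ
  locally_constant : ∀ ψ ∈ pieces, ∀ y ∈ D, ∀ᶠ y' in 𝓝 y, coeff ψ y' = coeff ψ y

namespace Transplantation

variable {Ω Ω' : Set ℂ} (T : Transplantation Ω Ω')

/-- The action on functions: `(T F)(y) = ∑ coeff ψ y * F (ψ y)`, the sum over the isometries `ψ` of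
the family with `ψ y ∈ Ω` (functions on `Ω` are extended by zero). -/
noncomputable def act (F : ℂ → ℂ) (y : ℂ) : ℂ :=
  ∑ ψ ∈ T.pieces, T.coeff ψ y * Ω.indicator F (ψ y)

/-- The operator is not zero. -/
def IsNonzero : Prop := ∃ F : ℂ → ℂ, ∃ y ∈ T.D, T.act F y ≠ 0

/-- The operator respects the Dirichlet condition: if `F` is smooth and vanishes on the boundary of
`Ω`, then `T F` is `C¹` in `Ω'` and continuous up to the boundary of `Ω'`, where it vanishes. -/
def RespectsDirichlet : Prop :=
  ∀ F : ℂ → ℂ, ContDiff ℝ ∞ F → HasCompactSupport F → (∀ z ∈ frontier Ω, F z = 0) →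
    ∃ g : ℂ → ℂ, Continuous g ∧ (∀ y, y ∉ Ω' → g y = 0) ∧ ContDiffOn ℝ 1 g Ω' ∧
      ∀ y ∈ T.D, g y = T.act F y

end Transplantation

end Pool.Agent.W780.TR
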